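import Mathlib

set_option autoImplicit false

namespace Pool.Agent.Results.MP_cd51d2_nt.EvenBases

/-- `n` is a pseudoprime to base `a`: a composite positive integer with `a^(n-1) ≡ 1 (mod n)`. -/
def IsPseudoprime (a n : ℕ) : Prop := 1 < n ∧ ¬ n.Prime ∧ a ^ (n - 1) ≡ 1 [MOD n]

/-- Arithmetic progressions `n₁ < n₂ < n₃` of three pseudoprimes to base `a`. -/
def Progressions (a : ℕ) : Set (ℕ × ℕ × ℕ) :=
  {t | t.1 < t.2.1 ∧ t.2.1 < t.2.2 ∧ t.2.1 - t.1 = t.2.2 - t.2.1 ∧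
    IsPseudoprime a t.1 ∧ IsPseudoprime a t.2.1 ∧ IsPseudoprime a t.2.2}

def F1 (x : ℤ) : ℤ := x^8 - x^7 + x^5 - x^4 + x^3 - x + 1
def F2 (x : ℤ) : ℤ := x^8 - x^4 + 1
def F3 (x : ℤ) : ℤ := x^8 + x^7 - x^5 - x^4 - x^3 + x + 1

lemma psp_of (a : ℕ) (F : ℤ) (hF : 1 < F) (m : ℕ) (h1 : F ∣ (a:ℤ)^m - 1) (h2 : (m:ℤ) ∣ F - 1)
    (u : ℤ) (hu : u ∣ F) (hu1 : 1 < u) (hu2 : u < F) : IsPseudoprime a F.toNat := by
  obtain ⟨n, rfl⟩ : ∃ n : ℕ, F = (n:ℤ) := ⟨F.toNat, (Int.toNat_of_nonneg (by omega)).symm⟩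
  obtain ⟨v, rfl⟩ : ∃ v : ℕ, u = (v:ℤ) := ⟨u.toNat, (Int.toNat_of_nonneg (by omega)).symm⟩
  rw [Int.toNat_natCast]
  have hn : 1 < n := by exact_mod_cast hF
  refine ⟨hn, ?_, ?_⟩
  · intro hp
    have hv : v ∣ n := by exact_mod_cast hu
    rcases (Nat.dvd_prime hp).mp hv with h | h
    · rw [h] at hu1; norm_num at hu1
    · rw [h] at hu2; exact lt_irrefl _ hu2
  · have h3 : m ∣ n - 1 := by
      have : ((n - 1 : ℕ) : ℤ) = (n:ℤ) - 1 := by push_cast [Nat.cast_sub hn.le]; ring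
      rw [← this] at h2
      exact_mod_cast h2
    obtain ⟨c, hc⟩ := h3
    have h4 : ((a:ℤ)^m - 1) ∣ (a:ℤ)^(n-1) - 1 := by
      rw [hc, pow_mul]
      have := sub_dvd_pow_sub_pow ((a:ℤ)^m) 1 c
      rwa [one_pow] at this
    have h5 : (n:ℤ) ∣ (a:ℤ)^(n-1) - 1 := h1.trans h4
    apply Nat.ModEq.symm
    rw [Nat.modEq_iff_dvd]
    push_cast
    exact h5

lemma idem (a : ZMod 315) : (a^12)^2 = a^12 := by
  revert a; decide +kernel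

lemma key_dvd (a : ℕ) (ha : Even a) (i : ℕ) (hi : 3 ≤ i) :
    (((120 * (21 * 2^i) : ℕ)) : ℤ) ∣ (a:ℤ)^(21 * 2^i) * ((a:ℤ)^(21 * 2^i) - 1) := by
  have h315 : (315:ℤ) ∣ (a:ℤ)^(21 * 2^i) * ((a:ℤ)^(21 * 2^i) - 1) := by
    obtain ⟨j, rfl⟩ := Nat.exists_eq_add_of_le hi
    have e : 21 * 2^(3 + j) = 12 * (14 * 2^j) := by rw [pow_add]; ring
    have h : (((a:ℤ)^(21 * 2^(3+j)) * ((a:ℤ)^(21 * 2^(3+j)) - 1) : ℤ) : ZMod 315) = 0 := by
      push_cast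
      rw [e, pow_mul]
      have h1 : ∀ t : ℕ, 1 ≤ t → ((a : ZMod 315)^12)^t = (a : ZMod 315)^12 := by
        intro t ht
        induction t, ht using Nat.le_induction with
        | base => rw [pow_one]
        | succ t _ ih => rw [pow_succ, ih, ← sq, idem]
      rw [h1 _ (by have : 0 < 2^j := by positivity
                   omega)]
      have := idem (a : ZMod 315)
      rw [sq] at this
      rw [mul_sub, this, mul_one, sub_self]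
    exact (ZMod.intCast_zmod_eq_zero_iff_dvd _ 315).mp h
  have h2 : ((2:ℤ)^(i+3)) ∣ (a:ℤ)^(21 * 2^i) * ((a:ℤ)^(21 * 2^i) - 1) := by
    apply Dvd.dvd.mul_right
    have h3 : (2:ℤ) ∣ a := by exact_mod_cast ha.two_dvd
    have h4 : i + 3 ≤ 21 * 2^i := by
      have : i < 2^i := Nat.lt_two_pow_self
      omega
    exact (pow_dvd_pow_of_dvd h3 (i+3)).trans (pow_dvd_pow _ h4)
  have hco : IsCoprime (315:ℤ) ((2:ℤ)^(i+3)) := by
    apply IsCoprime.pow_right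
    exact ⟨1, -157, by norm_num⟩
  have h5 := hco.mul_dvd h315 h2
  have e2 : (((120 * (21 * 2^i) : ℕ)) : ℤ) = 8 * (315 * 2^i) := by push_cast; ring
  have e3 : (315:ℤ) * 2^(i+3) = 8 * (315 * 2^i) := by rw [pow_add]; ring
  rw [e2, ← e3]; exact h5

lemma exs (x : ℤ) (hx : 2 ≤ x) : ∃ s : ℕ, x = (s:ℤ) + 2 :=
  ⟨(x - 2).toNat, by rw [Int.toNat_of_nonneg (by omega)]; ring⟩

lemma big1 (x : ℤ) (hx : 2 ≤ x) : x^2 ≤ F1 x := by
  obtain ⟨s, rfl⟩ := exs x hx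
  rw [← sub_nonneg]; unfold F1; ring_nf; positivity

lemma big2 (x : ℤ) (hx : 2 ≤ x) : x^2 ≤ F2 x := by
  obtain ⟨s, rfl⟩ := exs x hx
  rw [← sub_nonneg]; unfold F2; ring_nf; positivity

lemma big3 (x : ℤ) (hx : 2 ≤ x) : x^2 ≤ F3 x := by
  obtain ⟨s, rfl⟩ := exs x hx
  rw [← sub_nonneg]; unfold F3; ring_nf; positivity

lemma one_lt1 (x : ℤ) (hx : 2 ≤ x) : 1 < F1 x := by have := big1 x hx; nlinarith
lemma one_lt2 (x : ℤ) (hx : 2 ≤ x) : 1 < F2 x := by have := big2 x hx; nlinarith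
lemma one_lt3 (x : ℤ) (hx : 2 ≤ x) : 1 < F3 x := by have := big3 x hx; nlinarith

lemma lt1 (y : ℤ) (hy : 2 ≤ y) : F1 y < F1 (y^7) := by
  have h7 : 2 ≤ y^7 := by
    calc (2:ℤ) ≤ y := hy
      _ ≤ y^7 := le_self_pow₀ (by omega) (by norm_num)
  have h1 : F1 y < (y^7)^2 := by
    rw [← sub_pos]
    obtain ⟨s, rfl⟩ := exs y hy
    unfold F1; ring_nf; positivity
  exact lt_of_lt_of_le h1 (big1 _ h7)

lemma lt2 (y : ℤ) (hy : 2 ≤ y) : F2 y < F2 (y^7) := by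
  have h7 : 2 ≤ y^7 := by
    calc (2:ℤ) ≤ y := hy
      _ ≤ y^7 := le_self_pow₀ (by omega) (by norm_num)
  have h1 : F2 y < (y^7)^2 := by
    rw [← sub_pos]
    obtain ⟨s, rfl⟩ := exs y hy
    unfold F2; ring_nf; positivity
  exact lt_of_lt_of_le h1 (big2 _ h7)

lemma lt3 (y : ℤ) (hy : 2 ≤ y) : F3 y < F3 (y^7) := by
  have h7 : 2 ≤ y^7 := by
    calc (2:ℤ) ≤ y := hy
      _ ≤ y^7 := le_self_pow₀ (by omega) (by norm_num)
  have h1 : F3 y < (y^7)^2 := by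
    rw [← sub_pos]
    obtain ⟨s, rfl⟩ := exs y hy
    unfold F3; ring_nf; positivity
  exact lt_of_lt_of_le h1 (big3 _ h7)

lemma dvd1 (y : ℤ) : F1 y ∣ F1 (y^7) :=
  ⟨y^48 + y^47 + y^46 - y^43 - y^42 - 2*y^41 - y^40 - y^39 + y^36 + y^35 + y^34 + y^33 + y^32 + y^31 - y^28 - y^26 - y^24 - y^22 - y^20 + y^17 + y^16 + y^15 + y^14 + y^13 + y^12 - y^9 - y^8 - 2*y^7 - y^6 - y^5 + y^2 + y + 1, by unfold F1; ring⟩

lemma dvd2 (y : ℤ) : F2 y ∣ F2 (y^7) :=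
  ⟨y^48 + y^44 - y^36 - y^32 + y^24 - y^16 - y^12 + y^4 + 1, by unfold F2; ring⟩

lemma dvd3 (y : ℤ) : F3 y ∣ F3 (y^7) :=
  ⟨y^48 - y^47 + y^46 + y^43 - y^42 + 2*y^41 - y^40 + y^39 + y^36 - y^35 + y^34 - y^33 + y^32 - y^31 - y^28 - y^26 - y^24 - y^22 - y^20 - y^17 + y^16 - y^15 + y^14 - y^13 + y^12 + y^9 - y^8 + 2*y^7 - y^6 + y^5 + y^2 - y + 1, by unfold F3; ring⟩

lemma c1 (x : ℤ) : F1 x ∣ x^15 - 1 := ⟨x^7 + x^6 + x^5 - x^2 - x - 1, by unfold F1; ring⟩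
lemma c2 (x : ℤ) : F2 x ∣ x^24 - 1 := ⟨x^16 + x^12 - x^4 - 1, by unfold F2; ring⟩
lemma c3 (x : ℤ) : F3 x ∣ x^30 - 1 :=
  ⟨x^22 - x^21 + x^20 + x^17 - x^16 + x^15 - x^7 + x^6 - x^5 - x^2 + x - 1, by unfold F3; ring⟩

lemma m1 (x : ℤ) : x * (x - 1) ∣ F1 x - 1 := ⟨x^6 + x^3 + x + 1, by unfold F1; ring⟩
lemma m2 (x : ℤ) : x * (x - 1) ∣ F2 x - 1 := ⟨x^6 + x^5 + x^4 + x^3, by unfold F2; ring⟩
lemma m3 (x : ℤ) : x * (x - 1) ∣ F3 x - 1 := ⟨x^6 + 2*x^5 + 2*x^4 + x^3 - x - 1, by unfold F3; ring⟩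

lemma triple (a : ℕ) (ha : Even a) (ha2 : 2 ≤ a) (i : ℕ) (hi : 3 ≤ i) :
    ((F1 ((a:ℤ)^(21 * 2^i))).toNat, (F2 ((a:ℤ)^(21 * 2^i))).toNat, (F3 ((a:ℤ)^(21 * 2^i))).toNat) ∈
      Progressions a := by
  set k := 21 * 2^i with hk
  set y : ℤ := (a:ℤ)^(3 * 2^i) with hy
  set x : ℤ := (a:ℤ)^k with hx
  have hxy : x = y^7 := by rw [hx, hy, hk, ← pow_mul]; congr 1; ring
  have hy2 : 2 ≤ y := by
    have h1 : (2:ℤ) ≤ a := by exact_mod_cast ha2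
    have h2 : 3 * 2^i ≠ 0 := by positivity
    exact h1.trans (le_self_pow₀ (by omega) h2)
  have hx2 : 2 ≤ x := by
    rw [hxy]; exact hy2.trans (le_self_pow₀ (by omega) (by norm_num))
  have hkey := key_dvd a ha i hi
  rw [← hk, ← hx] at hkey
  have hm : ∀ m : ℕ, m ∣ 120 → ∀ F : ℤ, x * (x-1) ∣ F - 1 → ((k * m : ℕ) : ℤ) ∣ F - 1 := by
    intro m hm F hF
    refine Dvd.dvd.trans ?_ (hkey.trans hF)
    have : k * m ∣ 120 * k := by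
      rw [mul_comm k m]; exact Nat.mul_dvd_mul_right hm k
    exact_mod_cast this
  have hp : ∀ m : ℕ, (a:ℤ)^(k * m) - 1 = x^m - 1 := by intro m; rw [hx, ← pow_mul]
  have p1 : IsPseudoprime a (F1 x).toNat :=
    psp_of a (F1 x) (one_lt1 x hx2) (k * 15) (by rw [hp]; exact c1 x) (hm 15 (by norm_num) _ (m1 x))
      (F1 y) (by rw [hxy]; exact dvd1 y) (one_lt1 y hy2) (by rw [hxy]; exact lt1 y hy2)
  have p2 : IsPseudoprime a (F2 x).toNat :=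
    psp_of a (F2 x) (one_lt2 x hx2) (k * 24) (by rw [hp]; exact c2 x) (hm 24 (by norm_num) _ (m2 x))
      (F2 y) (by rw [hxy]; exact dvd2 y) (one_lt2 y hy2) (by rw [hxy]; exact lt2 y hy2)
  have p3 : IsPseudoprime a (F3 x).toNat :=
    psp_of a (F3 x) (one_lt3 x hx2) (k * 30) (by rw [hp]; exact c3 x) (hm 30 (by norm_num) _ (m3 x))
      (F3 y) (by rw [hxy]; exact dvd3 y) (one_lt3 y hy2) (by rw [hxy]; exact lt3 y hy2)
  have g1 := one_lt1 x hx2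
  have g2 := one_lt2 x hx2
  have g3 := one_lt3 x hx2
  have h12 : F1 x < F2 x := by
    rw [← sub_pos]
    obtain ⟨s, hs⟩ := exs x hx2
    rw [hs]; unfold F1 F2; ring_nf; positivity
  have hap : F1 x + F3 x = 2 * F2 x := by unfold F1 F2 F3; ring
  refine ⟨?_, ?_, ?_, p1, p2, p3⟩
  · simp only; omega
  · simp only; omega
  · simp only; omega

theorem result : ∀ a : ℕ, Even a → 2 ≤ a → (Progressions a).Infinite := by
  intro a ha ha2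
  apply Set.Infinite.of_image Prod.fst
  apply Set.infinite_of_forall_exists_gt
  intro B
  refine ⟨(F1 ((a:ℤ)^(21 * 2^(B+3)))).toNat, ⟨_, triple a ha ha2 (B+3) (by omega), rfl⟩, ?_⟩
  set x : ℤ := (a:ℤ)^(21 * 2^(B+3)) with hx
  have h1 : (B:ℤ) < x := by
    have h2 : B < a^(21 * 2^(B+3)) := by
      calc B < 2^B := Nat.lt_two_pow_self
        _ ≤ a^B := Nat.pow_le_pow_left ha2 B
        _ ≤ a^(21 * 2^(B+3)) := by
          apply Nat.pow_le_pow_right (by omega)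
          have : B + 3 < 2^(B+3) := Nat.lt_two_pow_self
          omega
    rw [hx]; exact_mod_cast h2
  have h2 : 2 ≤ x := by
    have h3 : (2:ℤ) ≤ a := by exact_mod_cast ha2
    have h4 : 21 * 2^(B+3) ≠ 0 := by positivity
    exact h3.trans (le_self_pow₀ (by omega) h4)
  have h3 := big1 x h2
  have h4 : x ≤ F1 x := by nlinarith
  omega

end Pool.Agent.Results.MP_cd51d2_nt.EvenBases
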